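import Pool.Agent.H53.MW.Targets

/-!
Row QPC of mwk_modules (MP_c62aed_lc): the number of the queries.
-/

set_option autoImplicit false

namespace Pool.Agent.H49.MWK

open Finset
open Pool.Agent.H53.MW

/-- the number of the subsets with at most `t` elements -/
theorem subs_le {α : Type*} [DecidableEq α] (Q : Finset α) (t : ℕ) :
    (Q.powerset.filter fun W => W.card ≤ t).card ≤ (Q.card + 1) ^ t := by
  induction t with
  | zero =>
    rw [pow_zero]
    refine card_le_one.2 (fun a ha b hb => ?_)
    rw [mem_filter] at ha hb
    rw [card_eq_zero.1 (Nat.le_zero.1 ha.2), card_eq_zero.1 (Nat.le_zero.1 hb.2)]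
  | succ t ih =>
    have h1 : (Q.powerset.filter fun W => W.card ≤ t + 1) ⊆
        ((Q.powerset.filter fun W => W.card ≤ t) ×ˢ insertNone Q).image
          (fun p => p.2.elim p.1 fun L => insert L p.1) := by
      intro W hW
      rw [mem_filter, mem_powerset] at hW
      rw [mem_image]
      rcases Nat.lt_or_ge t W.card with h | h
      · have hne : W.Nonempty := by
          rw [← card_pos]
          omega
        obtain ⟨L, hL⟩ := hne
        refine ⟨(W.erase L, some L), ?_, ?_⟩
        · rw [mem_product, mem_filter, mem_powerset]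
          refine ⟨⟨subset_trans (erase_subset _ _) hW.1, ?_⟩, ?_⟩
          · rw [card_erase_of_mem hL]
            omega
          · exact some_mem_insertNone.2 (hW.1 hL)
        · exact insert_erase hL
      · refine ⟨(W, none), ?_, rfl⟩
        rw [mem_product, mem_filter, mem_powerset]
        exact ⟨⟨hW.1, h⟩, none_mem_insertNone⟩
    calc (Q.powerset.filter fun W => W.card ≤ t + 1).card
        ≤ ((Q.powerset.filter fun W => W.card ≤ t) ×ˢ insertNone Q).card :=
          le_trans (card_le_card h1) card_image_le
      _ = (Q.powerset.filter fun W => W.card ≤ t).card * (Q.card + 1) := by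
          rw [card_product, card_insertNone]
      _ ≤ (Q.card + 1) ^ t * (Q.card + 1) := Nat.mul_le_mul_right _ ih
      _ = (Q.card + 1) ^ (t + 1) := (pow_succ _ _).symm

/-- QPC -/
theorem pf_QPC : T_QPC := by
  classical
  intro n Q t h
  refine le_trans card_image_le (le_trans (subs_le Q t) ?_)
  rw [pow_mul]
  refine Nat.pow_le_pow_left ?_ t
  have h1 : 1 ≤ 2 ^ t := Nat.one_le_two_pow
  rw [pow_succ]
  omega

end Pool.Agent.H49.MWK
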